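import Pool.Agent.MP_c69980_ag.H43.Spec4

/-!
The zeros at bad points are negligible.
-/

set_option autoImplicit false

namespace Pool.Agent.MP_c69980_ag.H43

open MvPolynomial H60 Finset Filter Topology Metric Real

lemma bad_reidx {N : ℕ} (c : Fin N → ℂ) (s : Finset (Fin N)) : ∃ c' : Fin s.card → ℂ,
    (∀ i, ∃ j ∈ s, c' i = c j) ∧
      ∀ z, ∏ i, (z - c i) = (∏ i, (z - c' i)) * ∏ i ∈ sᶜ, (z - c i) := by
  refine ⟨fun i => c (s.equivFin.symm i), fun i => ⟨_, (s.equivFin.symm i).2, rfl⟩, fun z => ?_⟩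
  rw [← prod_mul_prod_compl s, ← prod_coe_sort s,
    ← s.equivFin.symm.prod_comp fun i : s => z - c i]

lemma bad_num {n ρ ρ' η S : ℝ} (n0 : 0 ≤ n) (h0 : 0 < ρ) (h1 : ρ + η / 4 ≤ ρ') (h2 : ρ' ≤ 2 * S)
    (η0 : 0 < η) (S16 : 16 ≤ S) (ηS : 1 ≤ η * S) (h : n * log (ρ' / ρ) ≤ 2 * S) : n ≤ S ^ 4 := by
  have p : 0 < ρ' := by linarith
  have a1 := one_sub_inv_le_log_of_pos (div_pos p h0)
  rw [inv_div] at a1
  have a2 : 1 / (8 * S ^ 2) ≤ 1 - ρ / ρ' := by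
    rw [one_sub_div p.ne', div_le_div_iff₀ (by positivity) p]
    nlinarith [mul_le_mul_of_nonneg_right (show η / 4 ≤ ρ' - ρ by linarith)
      (show 0 ≤ 8 * S ^ 2 by positivity), mul_le_mul_of_nonneg_right ηS (show 0 ≤ S by linarith)]
  have a3 := (mul_le_mul_of_nonneg_left (a2.trans a1) n0).trans h
  rw [mul_one_div, div_le_iff₀ (by positivity)] at a3
  nlinarith [mul_le_mul_of_nonneg_right S16 (show 0 ≤ S ^ 3 by positivity)]

/-- The weight of a point. -/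
noncomputable def badW (r : ℝ) (z : ℂ) : ℝ := log (max r ‖z‖) - log (max 1 ‖z‖)

lemma badW_eq {r : ℝ} (r1 : 1 ≤ r) (z : ℂ) : badW r z = log r - log (min r (max 1 ‖z‖)) := by
  unfold badW
  rcases le_total ‖z‖ r with h | h
  · rw [max_eq_left h, min_eq_right (max_le r1 h)]
  · rw [max_eq_right h, max_eq_right (r1.trans h), min_eq_left h, sub_self, sub_self]

lemma badW_nonneg {r : ℝ} (r1 : 1 ≤ r) (z : ℂ) : 0 ≤ badW r z :=
  sub_nonneg.2 (log_le_log (by positivity) (max_le_max_right _ r1))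

lemma badW_lip {r : ℝ} (r1 : 1 ≤ r) : LipschitzWith 1 (badW r) := by
  refine LipschitzWith.of_le_add fun x y => ?_
  rw [badW_eq r1, badW_eq r1]
  have a1 : 1 ≤ min r (max 1 ‖x‖) := le_min r1 (le_max_left _ _)
  have a2 : 1 ≤ min r (max 1 ‖y‖) := le_min r1 (le_max_left _ _)
  have a3 : min r (max 1 ‖y‖) ≤ min r (max 1 ‖x‖) + dist x y := by
    have := norm_sub_norm_le y x
    rw [← dist_eq_norm, dist_comm] at this
    have := dist_nonneg (x := x) (y := y)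
    simp only [min_def, max_def]
    split_ifs <;> linarith
  generalize min r (max 1 ‖x‖) = a at *
  generalize min r (max 1 ‖y‖) = b at *
  have a4 := log_le_sub_one_of_pos (show 0 < b / a by positivity)
  rw [log_div (by positivity) (by positivity)] at a4
  have a5 : b / a ≤ 1 + dist x y := by
    rw [div_le_iff₀ (by positivity)]
    nlinarith [dist_nonneg (x := x) (y := y)]
  linarith

lemma bad_core (h1 : SCov) (h2 : SLoc) (h3 : SLoc2) {R r η S : ℝ} {N h l K : ℕ} {c : Fin N → ℂ}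
    {Q g Φ x u : ℂ → ℂ} {A : ℕ → ℂ → ℂ} (s : Finset (Fin N)) (r1 : 1 ≤ r) (η0 : 0 < η)
    (η1 : η ≤ 1) (hR : r + η < R) (S16 : 16 ≤ S) (rS : r ≤ S) (ηS : 1 ≤ η * S) (hS : (h : ℝ) ≤ S)
    (lS : (l : ℝ) ≤ S) (KS : (K : ℝ) ≤ S) (l0 : 0 < l) (hg : Hol R g) (hΦ : Hol R Φ)
    (hx : Hol R x) (hu : Hol R u) (hQ : Hol R Q) (nQ : NZ R Q) (nΨ : NZ R (Φ ^ h * x ^ l))
    (he : ∀ z, Q z = (∏ i, (z - c i)) * g z) (h0 : ∀ z, ‖z‖ ≤ r + η / 2 → g z ≠ 0)
    (up : ∀ z, ‖z‖ ≤ r + η → ‖Q z‖ ≤ exp S ∧ ‖Φ z‖ ≤ exp S ∧ ‖u z‖ ≤ exp S ∧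
      (∀ j < h, ‖A j z‖ ≤ exp S) ∧ ‖(Φ ^ h * x ^ l) z‖ ≤ exp S)
    (aQ : -S ≤ av Q 1) (aΨ : -S ≤ av (Φ ^ h * x ^ l) 1)
    (e1 : ∀ z, ‖z‖ ≤ r + η → ‖x z * u z ^ K - ∑ j ∈ range h, A j z * iteratedDeriv j Q z‖ ≤
      exp (-(S ^ 4) ^ 12))
    (hs : ∀ i ∈ s, ‖c i‖ ≤ r ∧ exp (-S) ≤ ‖u (c i)‖ ∧
      ∀ j < l, ‖u (c i) ^ K * iteratedDeriv j Φ (c i)‖ ≤ exp (-(S ^ 4) ^ 12)) :
    l * ∑ i ∈ s, (log r - log (max 1 ‖c i‖)) ≤
      12 * (av (Φ ^ h * x ^ l) r - av (Φ ^ h * x ^ l) 1) + 72 := by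
  have hΨ : Hol R (Φ ^ h * x ^ l) := (hΦ.pow h).mul (hx.pow l)
  have eΨ : ∀ z, (Φ ^ h * x ^ l) z = Φ z ^ h * x z ^ l := fun _ => rfl
  generalize Φ ^ h * x ^ l = Ψ at *
  -- the number of zeros of `Q`
  have n1 : ((univ.filter fun i => ‖c i‖ ≤ r + η / 4).card : ℝ) ≤ S ^ 4 := by
    refine bad_num (ρ := r + η / 4) (ρ' := r + η / 2) (Nat.cast_nonneg _) (by linarith)
      (by linarith) (by linarith) η0 S16 ηS
      ((count_le hg he h0 (by linarith) (by linarith) le_rfl (by linarith)).trans ?_)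
    have a1 := av_le hQ nQ (ρ := r + η / 2) (by linarith) (by linarith)
      fun z hz => (up z (by linarith)).1
    have a2 := av_mono hQ nQ (ρ' := r + η / 4) one_pos (by linarith) (by linarith)
    linarith
  -- the zeros of `Ψ`
  obtain ⟨N', b, g', b1, b2, b3, b4, n2⟩ : ∃ (N' : ℕ) (b : Fin N' → ℂ) (g' : ℂ → ℂ),
      (∀ j, ‖b j‖ ≤ r + η / 2) ∧ Hol R g' ∧ (∀ z, Ψ z = (∏ j, (z - b j)) * g' z) ∧
      (∀ z, ‖z‖ ≤ r + η / 2 → g' z ≠ 0) ∧ (N' : ℝ) ≤ S ^ 4 := by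
    obtain ⟨N0, a, g0, -, a2, a3, a4⟩ := factor hΨ nΨ hR
    obtain ⟨b, b1, b2⟩ := bad_reidx a (univ.filter fun i => ‖a i‖ ≤ r + η / 2)
    refine ⟨_, b, fun z => (∏ i ∈ (univ.filter fun i => ‖a i‖ ≤ r + η / 2)ᶜ, (z - a i)) * g0 z,
      fun j => ?_, DifferentiableOn.mul (by fun_prop) a2, fun z => by rw [a3, b2, mul_assoc],
      fun z hz => mul_ne_zero (prod_ne_zero_iff.2 fun i hi e => ?_) (a4 z (by linarith)), ?_⟩
    · obtain ⟨i, hi, e⟩ := b1 j
      exact e ▸ (mem_filter.1 hi).2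
    · exact mem_compl.1 hi (mem_filter.2 ⟨mem_univ _, sub_eq_zero.1 e ▸ hz⟩)
    · refine bad_num (ρ := r + η / 2) (ρ' := r + η) (Nat.cast_nonneg _) (by linarith)
        (by linarith) (by linarith) η0 S16 ηS
        ((count_le a2 a3 a4 (by linarith) (by linarith) le_rfl hR).trans ?_)
      have a1 := av_le hΨ nΨ (ρ := r + η) (by linarith) hR fun z hz => (up z hz.le).2.2.2.2
      have a2 := av_mono hΨ nΨ (ρ' := r + η / 2) one_pos (by linarith) (by linarith)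
      linarith
  have ST : 16 * S ^ 2 ≤ S ^ 4 := by nlinarith [mul_le_mul S16 S16 (by norm_num) (by linarith)]
  have ST' : 16 * S ≤ S ^ 4 := by nlinarith
  have B1 : 4 * (r + η / 2) / (η / 2) ≤ S ^ 4 := by
    rw [div_le_iff₀ (by positivity)]
    nlinarith [mul_le_mul_of_nonneg_right ST η0.le,
      mul_le_mul_of_nonneg_right ηS (show 0 ≤ S by linarith)]
  generalize S ^ 4 = T at *
  have T16 : 16 ≤ T := by linarith
  have T0 : 0 < T := by linarith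
  have eS : exp S ≤ exp T := exp_le_exp.2 (by linarith)
  have ρη : exp (-(3 * T)) ≤ η / 4 := by
    rw [exp_neg, inv_le_comm₀ (exp_pos _) (by positivity), inv_div, div_le_iff₀ η0]
    nlinarith [add_one_le_exp (3 * T), mul_le_mul_of_nonneg_right ST' η0.le]
  obtain ⟨I, i1, i2⟩ := exists_nat_pow_near (x := 2 * T ^ 4) (y := 2)
    (by nlinarith [one_le_pow₀ (show 1 ≤ T by linarith) (n := 4)]) one_lt_two
  have key := h1 N N' c b s (badW r) (3 * T) (2 * T ^ 5) (2 * (r + η / 2)) l (I + 1) (badW_lip r1)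
    (badW_nonneg r1) (by linarith) (by linarith) (by positivity) l0 ?_ ?_
  · have k1 : ∑ j, badW r (b j) = av Ψ r - av Ψ 1 := by
      rw [av_eq b2 b3 b4 (ρ := r) (by linarith) (by linarith) (by linarith),
        av_eq b2 b3 b4 one_pos (by linarith) (by linarith), add_sub_add_left_eq_sub,
        ← sum_sub_distrib]
      rfl
    have k2 : ∑ i ∈ s, badW r (c i) = ∑ i ∈ s, (log r - log (max 1 ‖c i‖)) :=
      sum_congr rfl fun i hi => by rw [badW, max_eq_left (hs i hi).1]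
    have k3 : N' * exp (-(3 * T)) ≤ 1 := by
      rw [exp_neg, mul_inv_le_iff₀ (exp_pos _)]
      linarith [add_one_le_exp (3 * T)]
    rw [k1, k2] at key
    linarith
  · have a1 : log (2 * (r + η / 2)) ≤ T := by
      linarith [log_le_sub_one_of_pos (show 0 < 2 * (r + η / 2) by positivity)]
    have a2 : N' * (log (2 * (r + η / 2)) + 4 * (3 * T)) ≤ T * (13 * T) :=
      (mul_le_mul_of_nonneg_left (by linarith) (Nat.cast_nonneg _)).trans
        (mul_le_mul_of_nonneg_right n2 (by positivity))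
    have a3 := mul_lt_mul_of_pos_right i2 (show 0 < 3 * T by positivity)
    have a4 : 13 * T ^ 2 ≤ T ^ 5 := by
      nlinarith [mul_le_mul_of_nonneg_left (show 16 ≤ T ^ 3 from
        T16.trans (le_self_pow₀ (by linarith) (by norm_num))) (sq_nonneg T)]
    nlinarith
  intro i hi m hm
  obtain ⟨s1, s2, s3⟩ := hs i hi
  have m1 : (1 : ℝ) ≤ 4 ^ m := one_le_pow₀ (by norm_num)
  have m2 : (4 : ℝ) ^ m ≤ 16 * T ^ 8 := by
    calc (4 : ℝ) ^ m ≤ 4 ^ (I + 1) := pow_le_pow_right₀ (by norm_num) hm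
      _ = 4 * (2 ^ I) ^ 2 := by rw [← pow_mul, mul_comm I 2, pow_mul, pow_succ]; norm_num [mul_comm]
      _ ≤ 4 * (2 * T ^ 4) ^ 2 := by gcongr
      _ = 16 * T ^ 8 := by ring
  generalize hy : (4 : ℝ) ^ m * (3 * T) = y
  have y1 : 3 * T ≤ y := by nlinarith
  have y2 : y ≤ 48 * T ^ 9 := by nlinarith
  have ρ1 : exp (-y) ≤ exp (-(3 * T)) := exp_le_exp.2 (by linarith)
  obtain ⟨c', c1, c2⟩ := bad_reidx c (univ.filter fun i' => ‖c i' - c i‖ ≤ exp (-y))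
  have ν1 : ((univ.filter fun i' => ‖c i' - c i‖ ≤ exp (-y)).card : ℝ) ≤ T := by
    refine le_trans (Nat.cast_le.2 (card_le_card fun j hj => ?_)) n1
    refine mem_filter.2 ⟨mem_univ _, ?_⟩
    linarith [(mem_filter.1 hj).2, norm_sub_norm_le (c j) (c i)]
  have bl : ∀ z ∈ ball (c i) η, ‖z‖ ≤ r + η := fun z hz => by
    linarith [mem_ball_iff_norm.1 hz, norm_sub_norm_le z (c i)]
  have bs : ball (c i) η ⊆ ball 0 R := fun z hz => mem_ball_zero_iff.2 ((bl z hz).trans_lt hR)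
  have k1 := h2 (c i) η T (exp (-y)) (exp (-T ^ 12)) _ h l K c' Q
    (fun z => (∏ j ∈ (univ.filter fun i' => ‖c i' - c i‖ ≤ exp (-y))ᶜ, (z - c j)) * g z) Φ x u A
    T16 η0 η1 (by nlinarith) (exp_pos _) ρ1 ν1 (by linarith) (by linarith) (by linarith)
    (DifferentiableOn.mul (by fun_prop) (hg.mono bs)) (hΦ.mono bs) (hu.mono bs)
    (fun z _ => by rw [he, c2, mul_assoc])
    (fun j => by
      obtain ⟨j', hj, e⟩ := c1 j
      exact e ▸ (mem_filter.1 hj).2)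
    (fun z hz => by
      obtain ⟨a1, a2, a3, a4, -⟩ := up z (bl z hz)
      exact ⟨a1.trans eS, a2.trans eS, a3.trans eS, fun j hj => (a4 j hj).trans eS⟩)
    ((exp_le_exp.2 (by linarith)).trans s2)
    (by
      rw [← exp_nat_mul, exp_le_exp]
      push_cast
      have a1 : 96 * T ^ 10 ≤ T ^ 12 := by
        nlinarith [mul_le_mul_of_nonneg_left (mul_le_mul T16 T16 (by norm_num) T0.le)
          (show 0 ≤ T ^ 10 by positivity)]
      have a2 := mul_le_mul (add_le_add ν1 (show (l : ℝ) ≤ T by linarith)) y2 (by linarith)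
        (by positivity)
      nlinarith)
    (fun z hz => e1 z (bl z hz)) s3
  have k2 := h3 R r (η / 2) T (exp (-y)) _ N' b Ψ g' (c i) r1 (by positivity) (by linarith) b2 b3
    b1 b4 T0.le (fun z hz => (up z (by linarith)).2.2.2.2.trans eS) (by linarith) s1 (exp_pos _)
    (by linarith) (by positivity) fun z hz => (eΨ z).symm ▸ k1 z hz.le
  rw [← exp_nat_mul, ← exp_add, log_exp] at k2
  refine le_trans ?_ k2
  push_cast
  have a1 := mul_le_mul_of_nonneg_right B1 T0.le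
  have a2 : T * T ≤ T ^ 5 := by
    rw [← pow_two]
    exact pow_le_pow_right₀ (by linarith) (by norm_num)
  linarith

theorem sBad (h1 : SCov) (h2 : SLoc) (h3 : SLoc2) : SBad := by
  intro t a M w Θ k A u q B hq hC b ε hε
  obtain ⟨h, N1, x, c, xS, xP, e1⟩ := hC.c1
  obtain ⟨C, hC3⟩ := hC.c3
  obtain ⟨lam, hlam⟩ := exists_nat_ge (24 * h * |C| / ε)
  obtain ⟨m, l, N2, Φ, ΦP, l0, hm, aΦ, e3⟩ := hC3 lam
  have ΨP : Φ ^ h * x ^ l ∉ A.P := fun hh => (A.prime.mem_or_mem hh).elim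
    (fun h' => ΦP (A.prime.mem_of_pow_mem _ h')) fun h' => xP (A.prime.mem_of_pow_mem _ h')
  have e2 : x * u ^ (N1 + N2) - ∑ j ∈ range h, (u ^ N2 * c j) * A.D^[j] q ∈ A.P := by
    convert A.P.mul_mem_left (u ^ N2) e1 using 1
    rw [mul_sub, mul_sum]
    simp only [mul_assoc]
    ring
  have up : ∀ y : A.V, ∀ᶠ b in atTop, ∀ᶠ n in A.U, ∀ z, ‖z‖ ≤ A.r n + A.η n →
      ‖y.1 n z‖ ≤ exp (A.τ n ^ b) := fun y => by
    obtain ⟨b0, hb⟩ := A.up y.1 y.2
    filter_upwards [eventually_ge_atTop b0] with b hb'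
    exact hb.mono fun n hn z hz =>
      (hn z hz).trans (exp_le_exp.2 (pow_le_pow_right₀ (A.num n).2.2.2.2 hb'))
  obtain ⟨b0, hb0⟩ := A.poly
  obtain ⟨b1, ⟨⟨u1, u2, u3, u4, u5⟩, u6⟩, g1, g2, g3⟩ := ((((up q).and ((up Φ).and ((up u).and
    ((up (Φ ^ h * x ^ l)).and (up (u ^ N1)))))).and
    ((eventually_all_finset (range h)).2 fun j _ => up (u ^ N2 * c j))).and
    ((eventually_ge_atTop b0).and ((eventually_ge_atTop b).and (eventually_ge_atTop 1)))).exists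
  obtain ⟨e, he0, he⟩ : ∃ e : ℝ, 0 < e ∧ 48 * (h + 2) * e = ε :=
    ⟨ε / (48 * (h + 2)), by positivity, by field_simp⟩
  filter_upwards [u1, u2, u3, u4, u5, (eventually_all_finset _).2 u6, hb0,
    A.tiny _ e2 (48 * b1),
    (eventually_all_finset (range l)).2 fun j hj => e3 j (mem_range.1 hj) (48 * b1 + 1),
    A.big q hq 1 one_pos, A.big _ ΨP 1 one_pos, A.big _ ΨP e he0, A.big Φ ΦP 1 one_pos,
    A.big x xP 1 one_pos, aΦ e he0, A.mem_S.1 xS e he0,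
    A.τtop.eventually_ge_atTop (16 + h + l + (N1 + N2 : ℕ) + 288 / ε)]
    with n u1 u2 u3 u4 u5 u6 p0 t1 t2 f1 f2 f3 f4 f5 f6 f7 f8 N c' g hg hf h0 s hs
  obtain ⟨r1, η0, η1, hR, τ1⟩ := A.num n
  have hol := fun y : A.V => A.hol _ y.2 n
  have S1 : A.τ n ≤ A.τ n ^ b1 := le_self_pow₀ τ1 (by omega)
  have S2 := pow_le_pow_right₀ τ1 g1
  have S3 := pow_le_pow_right₀ τ1 g2
  have S4 : A.τ n ^ (48 * b1) = ((A.τ n ^ b1) ^ 4) ^ 12 := by
    rw [← pow_mul, ← pow_mul, mul_comm]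
  rw [pow_succ, S4] at t2
  rw [S4] at t1
  have q0 : 0 ≤ 288 / ε := by positivity
  have q1 : (0 : ℝ) ≤ h := Nat.cast_nonneg _
  have q2 : (1 : ℝ) ≤ l := by exact_mod_cast l0
  have q3 : (0 : ℝ) ≤ (N1 + N2 : ℕ) := Nat.cast_nonneg _
  generalize A.τ n ^ b1 = S at *
  have key := bad_core h1 h2 h3 (S := S) (h := h) (l := l) (K := N1 + N2) (Φ := Φ.1 n) (x := x.1 n)
    (u := u.1 n) (A := fun j => (u ^ N2 * c j).1 n) s r1 η0 η1 hR (by linarith) (p0.1.trans S2)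
    (p0.2.trans (mul_le_mul_of_nonneg_left S2 η0.le)) (by linarith) (by linarith) (by linarith) l0
    hg (hol Φ) (hol x) (hol u) (hol q) f1.1 f2.1 hf h0
    (fun z hz => ⟨u1 z hz, u2 z hz, u3 z hz, fun j hj => u6 j (mem_range.2 hj) z hz, u4 z hz⟩)
    (by linarith [f1.2]) (le_trans (by linarith) f2.2) (fun z hz => ?_) fun i hi => ?_
  · have k1 := av_mul ((hol Φ).pow h) ((hol x).pow l) (f4.1.pow h) (f5.1.pow l) (A.r0 n) (A.rR n)
    have k2 : av (x.1 n) (A.r n) ≤ e * A.τ n :=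
      (circleAverage_mono ((hol x).int (A.r0 n) (A.rR n)) (pl_int f7.1) fun z _ =>
        le_max_right _ _).trans f7.2
    have k3 : av (Φ.1 n ^ h * x.1 n ^ l) (A.r n) =
        h * av (Φ.1 n) (A.r n) + l * av (x.1 n) (A.r n) := by
      rw [← av_pow (hol Φ) h (A.r0 n) (A.rR n), ← av_pow (hol x) l (A.r0 n) (A.rR n)]
      exact k1
    have k4 : -(e * A.τ n) ≤ av (Φ.1 n ^ h * x.1 n ^ l) 1 := f3.2
    have k5 : 24 * h * (C * m) ≤ ε * l := by
      rw [div_le_iff₀ hε] at hlam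
      have a1 : (lam : ℝ) * m ≤ l := by exact_mod_cast hm
      have a2 := mul_le_mul_of_nonneg_right hlam (Nat.cast_nonneg (α := ℝ) m)
      have a3 := mul_le_mul_of_nonneg_left a1 hε.le
      have a4 := mul_le_mul_of_nonneg_left (le_abs_self C)
        (mul_nonneg q1 (Nat.cast_nonneg (α := ℝ) m))
      linarith
    have k6 : 288 ≤ A.τ n * ε := (div_le_iff₀ hε).1 (by linarith)
    have τ0 : 0 ≤ A.τ n := by linarith
    have k7 := mul_le_mul_of_nonneg_left f6 q1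
    have k8 := mul_le_mul_of_nonneg_left k2 (zero_le_one.trans q2)
    have k9 := mul_le_mul_of_nonneg_right k5 τ0
    have k10 := mul_le_mul_of_nonneg_right q2 (mul_nonneg (show (0 : ℝ) ≤ h + 1 by linarith)
      (mul_nonneg he0.le τ0))
    have k11 := mul_le_mul_of_nonneg_right q2 (mul_nonneg τ0 hε.le)
    have k12 : l * (48 * (h + 2) * e * A.τ n) = l * (ε * A.τ n) := by rw [he]
    refine le_of_mul_le_mul_left (key.trans ?_) (zero_lt_one.trans_le q2)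
    rw [k3]
    linarith
  · refine le_trans (le_of_eq (congrArg _ ?_)) (t1 z hz)
    rw [← A.evp_apply n z (_ - _), map_sub, map_sum]
    refine congrArg₂ _ rfl (sum_congr rfl fun j _ => ?_)
    rw [map_mul, AP.evp_apply, AP.evp_apply, A.D_iter,
      dd_iter _ _ _ z (mem_ball_zero_iff.2 (hz.trans_lt hR))]
  · obtain ⟨s1, s2, s3⟩ := hs i hi
    refine ⟨s1, (exp_le_exp.2 (by linarith)).trans s3, fun j hj => ?_⟩
    rw [pow_add, mul_assoc, norm_mul]
    refine (mul_le_mul (u5 _ (by linarith)) (t2 j (mem_range.2 hj) _ s1 s2) (norm_nonneg _)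
      (exp_pos _).le).trans ?_
    rw [← exp_add, exp_le_exp]
    have a1 : S ≤ (S ^ 4) ^ 12 := by
      rw [← pow_mul]
      exact le_self_pow₀ (by linarith) (by norm_num)
    nlinarith

end Pool.Agent.MP_c69980_ag.H43
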