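import Pool.Agent.MP_c69980_ag.H43.Spec10

/-!
Simple roots of a family of monic polynomials depend smoothly on the parameter.
-/

set_option autoImplicit false

namespace Pool.Agent.MP_c69980_ag.H43

open Finset Filter Topology Metric

theorem rootOne {m d : ℕ} (P : (Fin m → ℂ) → Polynomial ℂ) (s₀ : Fin m → ℂ)
    (h1 : ∀ᶠ s in 𝓝 s₀, (P s).Monic ∧ (P s).natDegree = d)
    (h2 : ∀ i, ContDiffAt ℂ 1 (fun s => (P s).coeff i) s₀) (h3 : (P s₀).Separable) (x₀ : ℂ)
    (hx : (P s₀).IsRoot x₀) :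
    ∃ τ : (Fin m → ℂ) → ℂ, ContDiffAt ℂ 1 τ s₀ ∧ τ s₀ = x₀ ∧ ∀ᶠ s in 𝓝 s₀, (P s).IsRoot (τ s) := by
  obtain ⟨f, hf⟩ : ∃ f : (Fin m → ℂ) × ℂ → ℂ,
      f = fun p => ∑ i ∈ range (d + 1), (P p.1).coeff i * p.2 ^ i := ⟨_, rfl⟩
  have hev : ∀ s, (P s).natDegree = d → ∀ x, f (s, x) = (P s).eval x := by
    intro s hs x
    rw [hf, Polynomial.eval_eq_sum_range, hs]
  have hd := h1.self_of_nhds.2
  have cdf : ContDiffAt ℂ 1 f (s₀, x₀) := by
    rw [hf]
    refine ContDiffAt.sum fun i _ => ContDiffAt.mul ?_ (contDiffAt_snd.pow i)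
    exact ContDiffAt.comp (s₀, x₀) (g := fun s => (P s).coeff i) (h2 i) contDiffAt_fst
  have hc : (P s₀).derivative.eval x₀ ≠ 0 := by
    have := h3.eval₂_derivative_ne_zero (RingHom.id ℂ) (x := x₀) (by simpa using hx)
    simpa using this
  have hder : fderiv ℂ f (s₀, x₀) ∘L ContinuousLinearMap.inr ℂ (Fin m → ℂ) ℂ =
      ContinuousLinearMap.toSpanSingleton ℂ ((P s₀).derivative.eval x₀) := by
    have a1 : HasFDerivAt (fun x : ℂ => f (s₀, x))
        (fderiv ℂ f (s₀, x₀) ∘L ContinuousLinearMap.inr ℂ (Fin m → ℂ) ℂ) x₀ :=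
      HasFDerivAt.comp x₀ (g := f) (f := fun x : ℂ => (s₀, x))
        (cdf.differentiableAt one_ne_zero).hasFDerivAt (hasFDerivAt_prodMk_right s₀ x₀)
    have a2 : (fun x : ℂ => f (s₀, x)) = fun x => (P s₀).eval x := funext (hev s₀ hd)
    rw [a2] at a1
    exact a1.unique ((P s₀).hasDerivAt x₀).hasFDerivAt
  have inv : (fderiv ℂ f (s₀, x₀) ∘L ContinuousLinearMap.inr ℂ (Fin m → ℂ) ℂ).IsInvertible := by
    rw [hder]
    refine ContinuousLinearMap.IsInvertible.of_inverse
      (g := ContinuousLinearMap.toSpanSingleton ℂ ((P s₀).derivative.eval x₀)⁻¹) ?_ ?_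
    · ext; simp [hc]
    · ext; simp [hc]
  refine ⟨cdf.implicitFunction one_ne_zero inv, cdf.contDiffAt_implicitFunction one_ne_zero inv,
    cdf.implicitFunction_apply_self one_ne_zero inv, ?_⟩
  filter_upwards [cdf.eventually_apply_implicitFunction one_ne_zero inv, h1] with s hs hs1
  rw [hev s hs1.2, hev s₀ hd] at hs
  exact hs.trans hx

theorem rootAll {d : ℕ} (Q : Polynomial ℂ) (hm : Q.Monic) (hd : Q.natDegree = d) (t : Fin d → ℂ)
    (ht : Function.Injective t) (hr : ∀ j, Q.IsRoot (t j)) (x : ℂ) :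
    Q.IsRoot x ↔ ∃ j, x = t j := by
  classical
  refine ⟨fun hx => ?_, fun ⟨j, hj⟩ => hj ▸ hr j⟩
  by_contra hne
  push Not at hne
  have hsub : insert x (univ.image t) ⊆ Q.roots.toFinset := by
    intro y hy
    rw [Multiset.mem_toFinset, Polynomial.mem_roots hm.ne_zero]
    rcases mem_insert.1 hy with rfl | hy
    · exact hx
    · obtain ⟨j, -, rfl⟩ := mem_image.1 hy
      exact hr j
  have hx' : x ∉ univ.image t := by
    intro h
    obtain ⟨j, -, hj⟩ := mem_image.1 h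
    exact hne j hj.symm
  have c1 := card_le_card hsub
  rw [card_insert_of_notMem hx', card_image_of_injective _ ht, card_univ, Fintype.card_fin] at c1
  have c2 := (Multiset.toFinset_card_le Q.roots).trans (Polynomial.card_roots' Q)
  omega

theorem sRoot : SRoot := by
  classical
  intro m d P s₀ h1 h2 h3
  have hm := h1.self_of_nhds.1
  have hd := h1.self_of_nhds.2
  have hcard : (P s₀).roots.toFinset.card = d := by
    rw [Multiset.toFinset_card_of_nodup (Polynomial.nodup_roots h3), ← hd]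
    exact (IsAlgClosed.splits (P s₀)).natDegree_eq_card_roots.symm
  obtain ⟨r, hr, hri⟩ : ∃ r : Fin d → ℂ, (∀ j, (P s₀).IsRoot (r j)) ∧ Function.Injective r := by
    refine ⟨fun j => ((Finset.equivFinOfCardEq hcard).symm j : ℂ), fun j => ?_, ?_⟩
    · have := ((Finset.equivFinOfCardEq hcard).symm j).2
      rwa [Multiset.mem_toFinset, Polynomial.mem_roots hm.ne_zero] at this
    · exact Subtype.val_injective.comp (Finset.equivFinOfCardEq hcard).symm.injective
  choose τ hτ1 hτ2 hτ3 using fun j => rootOne P s₀ h1 h2 h3 (r j) (hr j)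
  have e1 : ∀ᶠ s in 𝓝 s₀, ∀ j, ContDiffAt ℂ 1 (τ j) s :=
    eventually_all.2 fun j => (hτ1 j).eventually (by simp)
  have e2 : ∀ᶠ s in 𝓝 s₀, ∀ j k, j ≠ k → τ j s ≠ τ k s := by
    refine eventually_all.2 fun j => eventually_all.2 fun k => ?_
    by_cases hjk : j = k
    · exact Eventually.of_forall fun s h => (h hjk).elim
    · have : ∀ᶠ s in 𝓝 s₀, τ j s ≠ τ k s := by
        have := ContinuousAt.eventually_ne ((hτ1 j).continuousAt.sub (hτ1 k).continuousAt)
          (y := 0) (by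
            show τ j s₀ - τ k s₀ ≠ 0
            rw [hτ2, hτ2]
            exact fun h => hjk (hri (sub_eq_zero.1 h)))
        exact this.mono fun s hs h => hs (sub_eq_zero.2 h)
      exact this.mono fun s hs _ => hs
  have e3 : ∀ᶠ s in 𝓝 s₀, ∀ j, (P s).IsRoot (τ j s) := eventually_all.2 hτ3
  obtain ⟨ε, hε, hb⟩ := Metric.eventually_nhds_iff_ball.1 (e1.and (e2.and (e3.and h1)))
  refine ⟨ε, τ, hε, fun s hs => ?_⟩
  obtain ⟨b1, b2, b3, b4, b5⟩ := hb s hs
  have hinj : Function.Injective fun j => τ j s := fun j k h => by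
    by_contra hjk
    exact b2 j k hjk h
  exact ⟨b1, hinj, rootAll (P s) b4 b5 _ hinj b3⟩

end Pool.Agent.MP_c69980_ag.H43
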